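import Pool.Agent.Helper31.BQ.Stmts2

/-!
# Row TF: invariance under linear homeomorphisms
-/

set_option autoImplicit false

namespace Pool.Agent.Helper33.BQ

open Filter Topology Pool.Agent.Helper31.BQ

universe u

private theorem qp_of {E F : Type u} [NormedAddCommGroup E] [NormedSpace ℝ E]
    [NormedAddCommGroup F] [NormedSpace ℝ F] (e : E ≃L[ℝ] F) (h : QP E) : QP F := by
  intro V _ _ _ _ _ _ _ X hX hconv f hf hb
  obtain ⟨G, hG, hGt⟩ := hb
  have hf' : IsAffineOn X (fun x => e.symm (f x)) := by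
    intro x y z t h0 h1 hz
    show e.symm (f z) = t • e.symm (f x) + (1 - t) • e.symm (f y)
    rw [hf x y z t h0 h1 hz, map_add, map_smul, map_smul]
  have hb' : IsBaireOne (fun x : X => e.symm (f x)) :=
    ⟨fun n x => e.symm (G n x), fun n => e.symm.continuous.comp (hG n), fun x =>
      (e.symm.continuous.tendsto (f x)).comp (hGt x)⟩
  obtain ⟨A, hA, hAt⟩ := h V X hX hconv _ hf' hb'
  refine ⟨fun n x => e (A n x), fun n => ⟨e.continuous.comp (hA n).1, ?_⟩, fun x => ?_⟩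
  · intro x y z t h0 h1 hz
    show e (A n z) = t • e (A n x) + (1 - t) • e (A n y)
    rw [(hA n).2 x y z t h0 h1 hz, map_add, map_smul, map_smul]
  · have h1 := (e.continuous.tendsto _).comp (hAt x)
    rw [e.apply_symm_apply] at h1
    exact h1

private theorem ap_of {E F : Type u} [NormedAddCommGroup E] [NormedSpace ℝ E]
    [NormedAddCommGroup F] [NormedSpace ℝ F] (e : E ≃L[ℝ] F) (h : AP E) : AP F := by
  intro K hK ε hε
  have hc : 0 < ‖(e : E →L[ℝ] F)‖ + 1 := by positivity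
  obtain ⟨T, hT, hTε⟩ := h (e.symm '' K) (hK.image e.symm.continuous)
    (ε / (‖(e : E →L[ℝ] F)‖ + 1)) (div_pos hε hc)
  refine ⟨(e : E →L[ℝ] F).comp (T.comp (e.symm : F →L[ℝ] E)), ?_, ?_⟩
  · have := hT
    have hle : LinearMap.range (((e : E →L[ℝ] F).comp (T.comp (e.symm : F →L[ℝ] E)) :
        F →L[ℝ] F) : F →ₗ[ℝ] F) ≤
        (LinearMap.range (T : E →ₗ[ℝ] E)).map ((e : E →L[ℝ] F) : E →ₗ[ℝ] F) := by
      rintro _ ⟨x, rfl⟩
      exact ⟨T (e.symm x), ⟨e.symm x, rfl⟩, rfl⟩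
    exact Submodule.finiteDimensional_of_le hle
  · intro x hx
    have h1 := hTε (e.symm x) ⟨x, hx, rfl⟩
    have h2 : ((e : E →L[ℝ] F).comp (T.comp (e.symm : F →L[ℝ] E))) x - x =
        (e : E →L[ℝ] F) (T (e.symm x) - e.symm x) := by
      simp
    rw [h2]
    calc ‖(e : E →L[ℝ] F) (T (e.symm x) - e.symm x)‖
        ≤ ‖(e : E →L[ℝ] F)‖ * ‖T (e.symm x) - e.symm x‖ := ContinuousLinearMap.le_opNorm _ _
      _ ≤ (‖(e : E →L[ℝ] F)‖ + 1) * ‖T (e.symm x) - e.symm x‖ := by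
          gcongr
          linarith
      _ < (‖(e : E →L[ℝ] F)‖ + 1) * (ε / (‖(e : E →L[ℝ] F)‖ + 1)) := by
          gcongr
      _ = ε := by field_simp

/-- TF: invariance under linear homeomorphisms -/
theorem st_TF : ST_TF.{u} := by
  intro E F _ _ _ _ e
  exact ⟨qp_of e, ap_of e⟩

end Pool.Agent.Helper33.BQ
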